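import Pool.Agent.X79.EC.Stm

set_option autoImplicit false

/-!
Part FIN of MP_2a9600_co.
-/

namespace Pool.Agent.X196.EC

open Finset Pool.Agent.X79.EC

section
variable {V : Type} [Fintype V] [DecidableEq V] (G : SimpleGraph V) [DecidableRel G.Adj]

theorem nb2 {a x y : V} (h : G.degree a = 2) (hx : G.Adj a x) (hy : G.Adj a y) (hne : x ≠ y)
    (z : V) (hz : G.Adj a z) : z = x ∨ z = y := by
  have h1 : ({x, y} : Finset V) = G.neighborFinset a := by
    apply Finset.eq_of_subset_of_card_le
    · intro w hw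
      rw [Finset.mem_insert, Finset.mem_singleton] at hw
      rcases hw with rfl | rfl
      · exact (G.mem_neighborFinset _ _).2 hx
      · exact (G.mem_neighborFinset _ _).2 hy
    · rw [G.card_neighborFinset_eq_degree, h, Finset.card_pair hne]
  have h2 := (G.mem_neighborFinset a z).2 hz
  rw [← h1, Finset.mem_insert, Finset.mem_singleton] at h2
  exact h2

theorem nb3 {a x y w : V} (h : G.degree a = 3) (hx : G.Adj a x) (hy : G.Adj a y)
    (hw : G.Adj a w) (h1 : x ≠ y) (h2 : x ≠ w) (h3 : y ≠ w)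
    (z : V) (hz : G.Adj a z) : z = x ∨ z = y ∨ z = w := by
  have h4 : ({x, y, w} : Finset V) = G.neighborFinset a := by
    apply Finset.eq_of_subset_of_card_le
    · intro v hv
      rw [Finset.mem_insert, Finset.mem_insert, Finset.mem_singleton] at hv
      rcases hv with rfl | rfl | rfl
      · exact (G.mem_neighborFinset _ _).2 hx
      · exact (G.mem_neighborFinset _ _).2 hy
      · exact (G.mem_neighborFinset _ _).2 hw
    · rw [G.card_neighborFinset_eq_degree, h, Finset.card_eq_three.2 ⟨x, y, w, h1, h2, h3, rfl⟩]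
  have h5 := (G.mem_neighborFinset a z).2 hz
  rw [← h4, Finset.mem_insert, Finset.mem_insert, Finset.mem_singleton] at h5
  exact h5

/-- sets of edges covering the vertices of degree at most 3 -/
def LG : Finset (Finset (Sym2 V)) :=
  G.edgeFinset.powerset.filter (fun S => ∀ v : V, G.degree v ≤ 3 → ∃ e ∈ S, v ∈ e)

theorem covs_lt (hG : Str G) : (covs G).card < (LG G).card := by
  apply Finset.card_lt_card
  rw [Finset.ssubset_iff_of_subset]
  · obtain ⟨v0, hv0⟩ := hG.ex
    refine ⟨G.edgeFinset.filter (fun e => v0 ∉ e), ?_, ?_⟩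
    · unfold LG
      rw [Finset.mem_filter, Finset.mem_powerset]
      refine ⟨Finset.filter_subset _ _, ?_⟩
      intro v hv
      have hne : v0 ≠ v := by
        rintro rfl
        omega
      have h1 : 1 < (G.neighborFinset v).card := by
        rw [G.card_neighborFinset_eq_degree]
        exact hG.deg2 v
      obtain ⟨z, hz, hz2⟩ := Finset.exists_mem_ne h1 v0
      refine ⟨s(v, z), ?_, Sym2.mem_mk_left v z⟩
      rw [Finset.mem_filter]
      refine ⟨?_, ?_⟩
      · rw [SimpleGraph.mem_edgeFinset, SimpleGraph.mem_edgeSet]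
        exact (G.mem_neighborFinset v z).1 hz
      · rw [Sym2.mem_iff]
        rintro (h | h)
        · exact hne h
        · exact hz2 h.symm
    · intro h
      unfold covs at h
      rw [Finset.mem_filter] at h
      obtain ⟨e, he, he2⟩ := h.2 v0
      rw [Finset.mem_filter] at he
      exact he.2 he2
  · intro S hS
    unfold covs at hS
    unfold LG
    rw [Finset.mem_filter] at hS ⊢
    exact ⟨hS.1, fun v _ => hS.2 v⟩

/-- an edge of a set at a vertex is a neighbour pair -/
theorem cov_edge {S : Finset (Sym2 V)} (hS : S ⊆ G.edgeFinset) {v : V} (h : ∃ e ∈ S, v ∈ e) :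
    ∃ z, G.Adj v z ∧ s(v, z) ∈ S := by
  obtain ⟨e, he, hv⟩ := h
  obtain ⟨z, rfl⟩ := Sym2.mem_iff_exists.1 hv
  refine ⟨z, ?_, he⟩
  have := hS he
  rwa [SimpleGraph.mem_edgeFinset, SimpleGraph.mem_edgeSet] at this

/-- codes of the big blocks -/
abbrev C9 : Type := {c : Bool × Bool × Bool × Bool //
  (c.1 = true ∨ c.2.2.2 = true) ∧ (c.2.1 = true ∨ c.2.2.2 = true) ∧
    (c.1 = true ∨ c.2.1 = true ∨ c.2.2.1 = true)}

/-- codes of the small blocks -/
abbrev C3 : Type := {c : Bool × Bool // c.1 = true ∨ c.2 = true}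

theorem card_C9 : Fintype.card C9 = 9 := by decide
theorem card_C3 : Fintype.card C3 = 3 := by decide

/-- vertices of degree 3 -/
abbrev D3 : Type := {u : V // G.degree u = 3}
/-- vertices of degree 2 without neighbour of degree 2 -/
abbrev D2 : Type := {w : V // G.degree w = 2 ∧ ∀ z, G.Adj w z → G.degree z ≠ 2}

theorem LG_le (hG : Str G) : (LG G).card ≤ 3 ^ nd G 2 := by
  classical
  have h1 : ∀ u : D3 G, ∃ a b v, a ≠ b ∧ G.Adj u.1 a ∧ G.Adj u.1 b ∧ G.Adj u.1 v ∧ G.Adj a b ∧
    G.degree a = 2 ∧ G.degree b = 2 ∧ 4 ≤ G.degree v := fun u => hG.tri u.1 u.2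
  choose A B W hAB hA hB hW hAB' hA2 hB2 hW4 using h1
  have h2 : ∀ w : D2 G, ∃ x y, x ≠ y ∧ G.Adj w.1 x ∧ G.Adj w.1 y := by
    intro w
    have : (G.neighborFinset w.1).card = 2 := by
      rw [G.card_neighborFinset_eq_degree]
      exact w.2.1
    obtain ⟨x, y, hne, he⟩ := Finset.card_eq_two.1 this
    refine ⟨x, y, hne, ?_, ?_⟩
    · rw [← G.mem_neighborFinset, he]; simp
    · rw [← G.mem_neighborFinset, he]; simp
  choose X Y hXY hX hY using h2
  have hAW : ∀ u, A u ≠ W u := by
    intro u h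
    have := hW4 u
    rw [← h, hA2 u] at this
    omega
  have hBW : ∀ u, B u ≠ W u := by
    intro u h
    have := hW4 u
    rw [← h, hB2 u] at this
    omega
  -- neighbours of degree 2 of a vertex of degree 3
  have hN : ∀ (u : D3 G) (x : V), G.Adj u.1 x → G.degree x = 2 → x = A u ∨ x = B u := by
    intro u x hux hx
    rcases nb3 G u.2 (hA u) (hB u) (hW u) (hAB u) (hAW u) (hBW u) x hux with h | h | h
    · exact Or.inl h
    · exact Or.inr h
    · exfalso
      have := hW4 u
      rw [← h, hx] at this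
      omega
  have hN3 : ∀ (u : D3 G) (x : V), G.Adj u.1 x → 3 ≤ G.degree x → x = W u := by
    intro u x hux hx
    rcases nb3 G u.2 (hA u) (hB u) (hW u) (hAB u) (hAW u) (hBW u) x hux with h | h | h
    · rw [h, hA2 u] at hx; omega
    · rw [h, hB2 u] at hx; omega
    · exact h
  -- every edge is coded
  have key1 : ∀ x y, G.Adj x y → G.degree x = 2 →
      (∃ u : D3 G, s(x, y) = s(u.1, A u) ∨ s(x, y) = s(u.1, B u) ∨ s(x, y) = s(u.1, W u) ∨
        s(x, y) = s(A u, B u)) ∨ (∃ w : D2 G, s(x, y) = s(w.1, X w) ∨ s(x, y) = s(w.1, Y w)) := by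
    intro x y hxy hx
    by_cases hz : ∃ z, G.Adj x z ∧ G.degree z = 2
    · obtain ⟨z, hxz, hz2⟩ := hz
      obtain ⟨u, hu3, hux, huz⟩ := hG.low x z hxz hx hz2
      left
      refine ⟨⟨u, hu3⟩, ?_⟩
      have hzu : z ≠ u := by
        rintro rfl
        omega
      have hxm := hN ⟨u, hu3⟩ x hux hx
      have hzm := hN ⟨u, hu3⟩ z huz hz2
      rcases nb2 G hx hxz hux.symm hzu y hxy with h | h
      · subst h
        right; right; right
        have hne : x ≠ y := hxy.ne
        rcases hxm with h1 | h1 <;> rcases hzm with h2 | h2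
        · exact absurd (h1.trans h2.symm) hne
        · rw [h1, h2]
        · rw [h1, h2]; exact Sym2.eq_swap
        · exact absurd (h1.trans h2.symm) hne
      · subst h
        rcases hxm with h1 | h1
        · left
          rw [h1]; exact Sym2.eq_swap
        · right; left
          rw [h1]; exact Sym2.eq_swap
    · right
      push Not at hz
      refine ⟨⟨x, hx, hz⟩, ?_⟩
      rcases nb2 G hx (hX ⟨x, hx, hz⟩) (hY ⟨x, hx, hz⟩) (hXY ⟨x, hx, hz⟩) y hxy with h | h
      · left
        show s(x, y) = s(x, X ⟨x, hx, hz⟩)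
        rw [← h]
      · right
        show s(x, y) = s(x, Y ⟨x, hx, hz⟩)
        rw [← h]
  have key2 : ∀ x y, G.Adj x y →
      (∃ u : D3 G, s(x, y) = s(u.1, A u) ∨ s(x, y) = s(u.1, B u) ∨ s(x, y) = s(u.1, W u) ∨
        s(x, y) = s(A u, B u)) ∨ (∃ w : D2 G, s(x, y) = s(w.1, X w) ∨ s(x, y) = s(w.1, Y w)) := by
    intro x y hxy
    by_cases hx : G.degree x = 2
    · exact key1 x y hxy hx
    · by_cases hy : G.degree y = 2
      · have := key1 y x hxy.symm hy
        rw [Sym2.eq_swap] at this
        exact this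
      · have hx3 : 3 ≤ G.degree x := by
          have := hG.deg2 x
          omega
        have hy3 : 3 ≤ G.degree y := by
          have := hG.deg2 y
          omega
        left
        rcases hG.high x y hxy hx3 hy3 with h | h
        · refine ⟨⟨x, h⟩, Or.inr (Or.inr (Or.inl ?_))⟩
          have h3 := hN3 ⟨x, h⟩ y hxy hy3
          show s(x, y) = s(x, W ⟨x, h⟩)
          rw [← h3]
        · refine ⟨⟨y, h⟩, Or.inr (Or.inr (Or.inl ?_))⟩
          have h3 := hN3 ⟨y, h⟩ x hxy.symm hx3
          show s(x, y) = s(y, W ⟨y, h⟩)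
          rw [← h3]
          exact Sym2.eq_swap
  -- the code
  have hc9 : ∀ S : {S // S ∈ LG G}, ∀ u : D3 G,
      (decide (s(u.1, A u) ∈ S.1) = true ∨ decide (s(A u, B u) ∈ S.1) = true) ∧
      (decide (s(u.1, B u) ∈ S.1) = true ∨ decide (s(A u, B u) ∈ S.1) = true) ∧
      (decide (s(u.1, A u) ∈ S.1) = true ∨ decide (s(u.1, B u) ∈ S.1) = true ∨
        decide (s(u.1, W u) ∈ S.1) = true) := by
    rintro ⟨S, hS⟩ u
    simp only [decide_eq_true_eq]
    unfold LG at hS
    rw [Finset.mem_filter, Finset.mem_powerset] at hS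
    obtain ⟨hSE, hcov⟩ := hS
    refine ⟨?_, ?_, ?_⟩
    · obtain ⟨z, hz, hzS⟩ := cov_edge G hSE (hcov (A u) (by rw [hA2 u]; omega))
      have hne : B u ≠ u.1 := (hB u).ne'
      rcases nb2 G (hA2 u) (hAB' u) (hA u).symm hne z hz with h | h
      · right; rw [← h]; exact hzS
      · left; rw [← h, Sym2.eq_swap]; exact hzS
    · obtain ⟨z, hz, hzS⟩ := cov_edge G hSE (hcov (B u) (by rw [hB2 u]; omega))
      have hne : A u ≠ u.1 := (hA u).ne'
      rcases nb2 G (hB2 u) (hAB' u).symm (hB u).symm hne z hz with h | h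
      · right; rw [← h, Sym2.eq_swap]; exact hzS
      · left; rw [← h, Sym2.eq_swap]; exact hzS
    · obtain ⟨z, hz, hzS⟩ := cov_edge G hSE (hcov u.1 (by rw [u.2]))
      rcases nb3 G u.2 (hA u) (hB u) (hW u) (hAB u) (hAW u) (hBW u) z hz with h | h | h
      · left; rw [← h]; exact hzS
      · right; left; rw [← h]; exact hzS
      · right; right; rw [← h]; exact hzS
  have hc3 : ∀ S : {S // S ∈ LG G}, ∀ w : D2 G,
      (decide (s(w.1, X w) ∈ S.1) = true ∨ decide (s(w.1, Y w) ∈ S.1) = true) := by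
    rintro ⟨S, hS⟩ w
    simp only [decide_eq_true_eq]
    unfold LG at hS
    rw [Finset.mem_filter, Finset.mem_powerset] at hS
    obtain ⟨hSE, hcov⟩ := hS
    obtain ⟨z, hz, hzS⟩ := cov_edge G hSE (hcov w.1 (by rw [w.2.1]; omega))
    rcases nb2 G w.2.1 (hX w) (hY w) (hXY w) z hz with h | h
    · left; rw [← h]; exact hzS
    · right; rw [← h]; exact hzS
  let F : {S // S ∈ LG G} → (D3 G → C9) × (D2 G → C3) := fun S =>
    (fun u => ⟨(decide (s(u.1, A u) ∈ S.1), decide (s(u.1, B u) ∈ S.1),
      decide (s(u.1, W u) ∈ S.1), decide (s(A u, B u) ∈ S.1)), hc9 S u⟩,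
     fun w => ⟨(decide (s(w.1, X w) ∈ S.1), decide (s(w.1, Y w) ∈ S.1)), hc3 S w⟩)
  have hF : Function.Injective F := by
    intro S S' hSS
    have e1 : ∀ u : D3 G, (s(u.1, A u) ∈ S.1 ↔ s(u.1, A u) ∈ S'.1) ∧
        (s(u.1, B u) ∈ S.1 ↔ s(u.1, B u) ∈ S'.1) ∧ (s(u.1, W u) ∈ S.1 ↔ s(u.1, W u) ∈ S'.1) ∧
        (s(A u, B u) ∈ S.1 ↔ s(A u, B u) ∈ S'.1) := by
      intro u
      have h := congrArg Subtype.val (congrFun (congrArg Prod.fst hSS) u)
      simp only [F, Prod.mk.injEq, decide_eq_decide] at h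
      exact h
    have e2 : ∀ w : D2 G, (s(w.1, X w) ∈ S.1 ↔ s(w.1, X w) ∈ S'.1) ∧
        (s(w.1, Y w) ∈ S.1 ↔ s(w.1, Y w) ∈ S'.1) := by
      intro w
      have h := congrArg Subtype.val (congrFun (congrArg Prod.snd hSS) w)
      simp only [F, Prod.mk.injEq, decide_eq_decide] at h
      exact h
    have hE : ∀ T : {S // S ∈ LG G}, T.1 ⊆ G.edgeFinset := by
      rintro ⟨T, hT⟩
      unfold LG at hT
      rw [Finset.mem_filter, Finset.mem_powerset] at hT
      exact hT.1
    have hiff : ∀ e ∈ G.edgeFinset, (e ∈ S.1 ↔ e ∈ S'.1) := by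
      intro e he
      induction e using Sym2.ind with
      | _ x y =>
        rw [SimpleGraph.mem_edgeFinset, SimpleGraph.mem_edgeSet] at he
        rcases key2 x y he with ⟨u, h | h | h | h⟩ | ⟨w, h | h⟩
        · rw [h]; exact (e1 u).1
        · rw [h]; exact (e1 u).2.1
        · rw [h]; exact (e1 u).2.2.1
        · rw [h]; exact (e1 u).2.2.2
        · rw [h]; exact (e2 w).1
        · rw [h]; exact (e2 w).2
    apply Subtype.ext
    ext e
    constructor
    · intro h
      exact (hiff e (hE S h)).1 h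
    · intro h
      exact (hiff e (hE S' h)).2 h
  -- the count of the vertices of degree 2
  let Ψ : (D3 G × Bool) ⊕ D2 G → {v : V // v ∈ univ.filter (fun v : V => G.degree v = 2)} := fun z =>
    match z with
    | Sum.inl (u, true) => ⟨A u, by simp [hA2 u]⟩
    | Sum.inl (u, false) => ⟨B u, by simp [hB2 u]⟩
    | Sum.inr w => ⟨w.1, by simp [w.2.1]⟩
  have huA : ∀ u u' : D3 G, G.Adj u'.1 (A u) → u' = u := by
    intro u u' h
    have hne : B u ≠ u.1 := (hB u).ne'
    rcases nb2 G (hA2 u) (hAB' u) (hA u).symm hne u'.1 h.symm with h1 | h1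
    · have h2 := u'.2
      rw [h1, hB2 u] at h2
      omega
    · exact Subtype.ext h1
  have huB : ∀ u u' : D3 G, G.Adj u'.1 (B u) → u' = u := by
    intro u u' h
    have hne : A u ≠ u.1 := (hA u).ne'
    rcases nb2 G (hB2 u) (hAB' u).symm (hB u).symm hne u'.1 h.symm with h1 | h1
    · have h2 := u'.2
      rw [h1, hA2 u] at h2
      omega
    · exact Subtype.ext h1
  have hΨ : Function.Injective Ψ := by
    intro z z' hzz
    have hv := congrArg Subtype.val hzz
    rcases z with ⟨u, b⟩ | w <;> rcases z' with ⟨u', b'⟩ | w'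
    · cases b <;> cases b'
      · have hv' : B u = B u' := hv
        have : u' = u := huB u u' (by rw [hv']; exact hB u')
        rw [this]
      · have hv' : B u = A u' := hv
        have : u' = u := huB u u' (by rw [hv']; exact hA u')
        subst this
        exact absurd hv'.symm (hAB u')
      · have hv' : A u = B u' := hv
        have : u' = u := huA u u' (by rw [hv']; exact hB u')
        subst this
        exact absurd hv' (hAB u')
      · have hv' : A u = A u' := hv
        have : u' = u := huA u u' (by rw [hv']; exact hA u')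
        rw [this]
    · exfalso
      cases b
      · have hv' : B u = w'.1 := hv
        exact w'.2.2 (A u) (by rw [← hv']; exact (hAB' u).symm) (hA2 u)
      · have hv' : A u = w'.1 := hv
        exact w'.2.2 (B u) (by rw [← hv']; exact hAB' u) (hB2 u)
    · exfalso
      cases b'
      · have hv' : w.1 = B u' := hv
        exact w.2.2 (A u') (by rw [hv']; exact (hAB' u').symm) (hA2 u')
      · have hv' : w.1 = A u' := hv
        exact w.2.2 (B u') (by rw [hv']; exact hAB' u') (hB2 u')
    · have hv' : w.1 = w'.1 := hv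
      rw [Subtype.ext hv']
  have hcard : 2 * Fintype.card (D3 G) + Fintype.card (D2 G) ≤ nd G 2 := by
    have h := Fintype.card_le_of_injective Ψ hΨ
    rw [Fintype.card_sum, Fintype.card_prod, Fintype.card_bool, Fintype.card_coe] at h
    unfold nd
    omega
  have h3 := Fintype.card_le_of_injective F hF
  rw [Fintype.card_prod, Fintype.card_fun, Fintype.card_fun, card_C9, card_C3,
    Fintype.card_coe] at h3
  calc (LG G).card ≤ 9 ^ Fintype.card (D3 G) * 3 ^ Fintype.card (D2 G) := h3
    _ = 3 ^ (2 * Fintype.card (D3 G) + Fintype.card (D2 G)) := by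
        rw [pow_add, pow_mul]; norm_num
    _ ≤ 3 ^ nd G 2 := Nat.pow_le_pow_right (by norm_num) hcard

end

theorem t_FIN : Pool.Agent.X79.EC.S_FIN := by
  intro V _ _ G _ hG
  exact lt_of_lt_of_le (covs_lt G hG) (LG_le G hG)

end Pool.Agent.X196.EC
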